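import Pool.Agent.KS6_17.VS.Tree

/-!
# The upper Vietoris and the Scott topology: separable σ-compact spaces, and a dichotomy

The notions used below (in `Pool.Agent.KS6_17.VS.Main`, `Pool.Agent.KS6_17.VS.Dup`):
* `KK X`: the nonempty compact saturated subsets of `X`; `WellFiltered X`;
* `VietorisOpen X`, `ScottOpen X`: the open sets of the upper Vietoris topology and of the Scott
  topology of `KK X` ordered by reverse inclusion; `Coincide X`: these are the same sets;
* `Dup C = C × (ℕ ∪ {none})`: the points `(c, m)`, `m ∈ ℕ`, are isolated, and the neighbourhoods of
  `(c, none)` are the sets containing `V × (ℕ ∪ {none}) \ {c} × ℕ` for a neighbourhood `V` of `c`.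
-/

set_option autoImplicit false

namespace Pool.Agent.Results.MP_e230d6_gt.SeparableSigmaCompact

open Pool.Agent.KS6_17.VS

/-- (1) There is a first-countable, separable, σ-compact Hausdorff space with a base of clopen sets
(so a well-filtered one) for which the upper Vietoris and the Scott topology are different.
(2) For a compact metrizable space `C`, the space `Dup C` is a first-countable well-filtered
Hausdorff space, and the two topologies coincide for it if and only if `C` is countable.
(3) If the two topologies coincide for a Hausdorff space then they coincide for all its closed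
subspaces. -/
theorem result :
    (∃ (X : Type) (_ : TopologicalSpace X), T2Space X ∧
      TopologicalSpace.IsTopologicalBasis {V : Set X | IsClopen V} ∧ FirstCountableTopology X ∧
      TopologicalSpace.SeparableSpace X ∧ SigmaCompactSpace X ∧ WellFiltered X ∧ ¬ Coincide X) ∧
    (∀ (C : Type) [TopologicalSpace C] [CompactSpace C] [TopologicalSpace.MetrizableSpace C],
      T2Space (Dup C) ∧ FirstCountableTopology (Dup C) ∧ WellFiltered (Dup C) ∧
        (Coincide (Dup C) ↔ Countable C)) ∧
    (∀ (X Y : Type) [TopologicalSpace X] [TopologicalSpace Y] [T2Space Y] (f : X → Y),
      Topology.IsClosedEmbedding f → Coincide Y → Coincide X) :=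
  ⟨⟨TreeDup, inferInstance, inferInstance, zeroDim, inferInstance, inferInstance, inferInstance,
    wellFiltered, not_coincide crit_tree⟩,
    fun C _ _ _ => ⟨inferInstance, inferInstance, wellFiltered, dup_iff C⟩,
    fun _ _ _ _ _ _ hf h => coincide_closed hf h⟩

end Pool.Agent.Results.MP_e230d6_gt.SeparableSigmaCompact
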